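import Pool.Agent.Q329.LT.Game

/-! Cyclic covers of complete bipartite graphs and the expansion of their sets (helper329). -/

set_option autoImplicit false
set_option linter.unusedSectionVars false
set_option linter.unusedVariables false

open Finset

namespace Pool.Agent.Q329.ST

/-- The vertices: `(u, a)` on the left and `(v, b)` on the right. -/
abbrev Vtx (n q : ℕ) : Type := (Fin n ⊕ Fin n) × ZMod q

/-- The cyclic cover of the complete bipartite graph on `n + n` vertices with the voltages `x`: the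
left vertex `(u, a)` is joined to the right vertices `(v, a + x (u, v))`. -/
def cover {n q : ℕ} (x : Fin n × Fin n → ZMod q) : SimpleGraph (Vtx n q) where
  Adj s t := (∃ u v, s.1 = Sum.inl u ∧ t.1 = Sum.inr v ∧ t.2 = s.2 + x (u, v)) ∨
    ∃ u v, t.1 = Sum.inl u ∧ s.1 = Sum.inr v ∧ s.2 = t.2 + x (u, v)
  symm := ⟨fun s t h => h.symm⟩
  loopless := ⟨fun s h => by
    rcases h with ⟨u, v, h1, h2, -⟩ | ⟨u, v, h1, h2, -⟩
    · rw [h1] at h2; cases h2
    · rw [h1] at h2; cases h2⟩

/-- The number of edges with exactly one end in `S`, as pairs of an end in `S` and an end outside. -/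
noncomputable def cut {V : Type} (G : SimpleGraph V) (S : Finset V) : ℕ :=
  Nat.card {p : V × V // p.1 ∈ S ∧ p.2 ∉ S ∧ G.Adj p.1 p.2}

/-- The expansion `|E(S, V ∖ S)| / (d |S|)` of `S` in a `d`-regular graph. -/
noncomputable def expansion {V : Type} (G : SimpleGraph V) (d : ℕ) (S : Finset V) : ℝ :=
  (cut G S : ℝ) / (d * S.card)

variable {n q : ℕ}

lemma adj_lr (x : Fin n × Fin n → ZMod q) (u v : Fin n) (a b : ZMod q) :
    (cover x).Adj (Sum.inl u, a) (Sum.inr v, b) ↔ b = a + x (u, v) := by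
  constructor
  · rintro (⟨u', v', h1, h2, h3⟩ | ⟨u', v', h1, h2, h3⟩)
    · cases h1; cases h2; exact h3
    · cases h1
  · intro h
    exact Or.inl ⟨u, v, rfl, rfl, h⟩

lemma adj_rl (x : Fin n × Fin n → ZMod q) (u v : Fin n) (a b : ZMod q) :
    (cover x).Adj (Sum.inr v, b) (Sum.inl u, a) ↔ b = a + x (u, v) := by
  rw [SimpleGraph.adj_comm]
  exact adj_lr x u v a b

lemma adj_ll (x : Fin n × Fin n → ZMod q) (u v : Fin n) (a b : ZMod q) :
    ¬ (cover x).Adj (Sum.inl u, a) (Sum.inl v, b) := by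
  rintro (⟨u', v', h1, h2, h3⟩ | ⟨u', v', h1, h2, h3⟩)
  · cases h2
  · cases h2

lemma adj_rr (x : Fin n × Fin n → ZMod q) (u v : Fin n) (a b : ZMod q) :
    ¬ (cover x).Adj (Sum.inr u, a) (Sum.inr v, b) := by
  rintro (⟨u', v', h1, h2, h3⟩ | ⟨u', v', h1, h2, h3⟩)
  · cases h1
  · cases h1

/-- the indicator function -/
noncomputable def chi (S : Finset (Vtx n q)) (s : Vtx n q) : ℝ := by
  classical exact if s ∈ S then 1 else 0

lemma chi_nonneg (S : Finset (Vtx n q)) (s : Vtx n q) : 0 ≤ chi S s := by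
  unfold chi; split_ifs <;> norm_num

lemma chi_le (S : Finset (Vtx n q)) (s : Vtx n q) : chi S s ≤ 1 := by
  unfold chi; split_ifs <;> norm_num

lemma sum_chi [NeZero q] (S : Finset (Vtx n q)) : ∑ s, chi S s = S.card := by
  classical
  unfold chi
  rw [sum_ite_mem, univ_inter, sum_const, nsmul_eq_mul, mul_one]

/-- the edges inside `S` -/
noncomputable def inner [NeZero q] (x : Fin n × Fin n → ZMod q) (S : Finset (Vtx n q)) : ℝ :=
  ∑ e, ∑ a, chi S (Sum.inl e.1, a) * chi S (Sum.inr e.2, a + x e)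

open Classical in
lemma sum_nbr_l [NeZero q] (x : Fin n × Fin n → ZMod q) (F : Vtx n q → ℝ) (u : Fin n)
    (a : ZMod q) : ∑ t, (if (cover x).Adj (Sum.inl u, a) t then F t else 0) =
      ∑ v, F (Sum.inr v, a + x (u, v)) := by
  rw [Fintype.sum_prod_type, Fintype.sum_sum_type]
  have e1 : ∑ v : Fin n, ∑ b, (if (cover x).Adj (Sum.inl u, a) (Sum.inl v, b) then
      F (Sum.inl v, b) else 0) = 0 := by
    refine sum_eq_zero fun v _ => sum_eq_zero fun b _ => ?_
    rw [if_neg (adj_ll x u v a b)]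
  rw [e1, zero_add]
  refine sum_congr rfl fun v _ => ?_
  rw [sum_eq_single (a + x (u, v))]
  · rw [if_pos ((adj_lr x u v a _).2 rfl)]
  · intro b _ hb
    rw [if_neg fun h => hb ((adj_lr x u v a b).1 h)]
  · intro h
    exact absurd (mem_univ _) h

open Classical in
lemma sum_nbr_r [NeZero q] (x : Fin n × Fin n → ZMod q) (F : Vtx n q → ℝ) (v : Fin n)
    (b : ZMod q) : ∑ t, (if (cover x).Adj (Sum.inr v, b) t then F t else 0) =
      ∑ u, F (Sum.inl u, b - x (u, v)) := by
  rw [Fintype.sum_prod_type, Fintype.sum_sum_type]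
  have e1 : ∑ w : Fin n, ∑ c, (if (cover x).Adj (Sum.inr v, b) (Sum.inr w, c) then
      F (Sum.inr w, c) else 0) = 0 := by
    refine sum_eq_zero fun w _ => sum_eq_zero fun c _ => ?_
    rw [if_neg (adj_rr x v w b c)]
  rw [e1, add_zero]
  refine sum_congr rfl fun u _ => ?_
  rw [sum_eq_single (b - x (u, v))]
  · rw [if_pos ((adj_rl x u v _ b).2 (by ring))]
  · intro a _ ha
    rw [if_neg fun h => ha (by rw [(adj_rl x u v a b).1 h]; ring)]
  · intro h
    exact absurd (mem_univ _) h

lemma cut_sum [NeZero q] (x : Fin n × Fin n → ZMod q) (S : Finset (Vtx n q)) :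
    (cut (cover x) S : ℝ) = n * S.card - 2 * inner x S := by
  classical
  have h1 : (cut (cover x) S : ℝ) =
      ∑ s, ∑ t, if (cover x).Adj s t then chi S s * (1 - chi S t) else 0 := by
    unfold cut
    rw [Nat.card_eq_fintype_card, Fintype.card_subtype, card_filter]
    push_cast
    rw [Fintype.sum_prod_type]
    refine sum_congr rfl fun s _ => sum_congr rfl fun t _ => ?_
    unfold chi
    by_cases g1 : s ∈ S <;> by_cases g2 : t ∈ S <;> by_cases g3 : (cover x).Adj s t <;>
      simp [g1, g2, g3]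
  have h2 : ∀ (u : Fin n) (a : ZMod q),
      (∑ t, if (cover x).Adj (Sum.inl u, a) t then chi S (Sum.inl u, a) * (1 - chi S t) else 0) =
      n * chi S (Sum.inl u, a) -
        ∑ v, chi S (Sum.inl u, a) * chi S (Sum.inr v, a + x (u, v)) := by
    intro u a
    rw [sum_nbr_l x (fun t => chi S (Sum.inl u, a) * (1 - chi S t)) u a]
    simp only [mul_sub, mul_one]
    rw [sum_sub_distrib, sum_const, card_univ, Fintype.card_fin, nsmul_eq_mul]
  have h3 : ∀ (v : Fin n) (b : ZMod q),
      (∑ t, if (cover x).Adj (Sum.inr v, b) t then chi S (Sum.inr v, b) * (1 - chi S t) else 0) =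
      n * chi S (Sum.inr v, b) -
        ∑ u, chi S (Sum.inr v, b) * chi S (Sum.inl u, b - x (u, v)) := by
    intro v b
    rw [sum_nbr_r x (fun t => chi S (Sum.inr v, b) * (1 - chi S t)) v b]
    simp only [mul_sub, mul_one]
    rw [sum_sub_distrib, sum_const, card_univ, Fintype.card_fin, nsmul_eq_mul]
  have h4 : ∑ u : Fin n, ∑ a : ZMod q, ∑ v : Fin n,
      chi S (Sum.inl u, a) * chi S (Sum.inr v, a + x (u, v)) = inner x S := by
    unfold inner
    rw [Fintype.sum_prod_type]
    refine sum_congr rfl fun u _ => ?_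
    rw [sum_comm]
  have h5 : ∑ v : Fin n, ∑ b : ZMod q, ∑ u : Fin n,
      chi S (Sum.inr v, b) * chi S (Sum.inl u, b - x (u, v)) = inner x S := by
    unfold inner
    rw [Fintype.sum_prod_type]
    have g1 : ∀ v : Fin n, ∑ b : ZMod q, ∑ u : Fin n,
        chi S (Sum.inr v, b) * chi S (Sum.inl u, b - x (u, v)) =
        ∑ u : Fin n, ∑ a : ZMod q, chi S (Sum.inl u, a) * chi S (Sum.inr v, a + x (u, v)) := by
      intro v
      rw [sum_comm]
      refine sum_congr rfl fun u _ => ?_
      rw [← Equiv.sum_comp (Equiv.addRight (x (u, v)))]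
      refine sum_congr rfl fun a _ => ?_
      simp only [Equiv.coe_addRight, add_sub_cancel_right]
      ring
    rw [sum_congr rfl fun v _ => g1 v, sum_comm]
  rw [h1, Fintype.sum_prod_type, Fintype.sum_sum_type]
  rw [sum_congr rfl fun u _ => sum_congr rfl fun a _ => h2 u a,
    sum_congr rfl fun v _ => sum_congr rfl fun b _ => h3 v b]
  simp only [sum_sub_distrib]
  rw [h4, h5]
  have h6 := sum_chi S
  rw [Fintype.sum_prod_type, Fintype.sum_sum_type] at h6
  rw [← h6]
  simp only [← mul_sum]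
  ring

lemma expansion_eq [NeZero q] (hn : 1 ≤ n) (x : Fin n × Fin n → ZMod q) (S : Finset (Vtx n q))
    (hS : S.card = 2 * n) : expansion (cover x) n S = 1 - inner x S / (n : ℝ) ^ 2 := by
  have hnR : (1 : ℝ) ≤ n := by exact_mod_cast hn
  unfold expansion
  rw [cut_sum, hS]
  push_cast
  field_simp

open Pool.Agent.Q329.LT (ValueOne Solves)

lemma closed_of_cut [NeZero q] {x : Fin n × Fin n → ZMod q} {S : Finset (Vtx n q)}
    (h : cut (cover x) S = 0) {s t : Vtx n q} (hs : s ∈ S) (hst : (cover x).Adj s t) : t ∈ S := by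
  by_contra hcon
  unfold cut at h
  rw [Nat.card_eq_zero] at h
  rcases h with h | h
  · exact h.false ⟨(s, t), hs, hcon, hst⟩
  · exact absurd h (not_infinite_iff_finite.mpr inferInstance)

/-- the set of a labelling -/
noncomputable def graphOf (l : Fin n ⊕ Fin n → ZMod q) : Finset (Vtx n q) := by
  classical exact univ.image fun w => (w, l w)

lemma mem_graphOf (l : Fin n ⊕ Fin n → ZMod q) (s : Vtx n q) : s ∈ graphOf l ↔ l s.1 = s.2 := by
  classical
  unfold graphOf
  rw [mem_image]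
  constructor
  · rintro ⟨w, -, rfl⟩; rfl
  · intro h
    exact ⟨s.1, mem_univ _, Prod.ext rfl h⟩

lemma card_graphOf (l : Fin n ⊕ Fin n → ZMod q) : (graphOf l).card = 2 * n := by
  classical
  unfold graphOf
  rw [card_image_of_injective _ fun w w' h => congrArg Prod.fst h, card_univ, Fintype.card_sum,
    Fintype.card_fin, two_mul]

lemma yes_of_value [NeZero q] {x : Fin n × Fin n → ZMod q} (h : ValueOne x) :
    ∃ S : Finset (Vtx n q), S.card = 2 * n ∧ cut (cover x) S = 0 := by
  obtain ⟨L, M, h⟩ := h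
  refine ⟨graphOf (Sum.elim L M), card_graphOf _, ?_⟩
  unfold cut
  rw [Nat.card_eq_zero]
  refine Or.inl ⟨?_⟩
  rintro ⟨⟨s, t⟩, h1, h2, h3⟩
  rw [mem_graphOf] at h1 h2
  rcases s with ⟨u | u, a⟩ <;> rcases t with ⟨v | v, b⟩
  · exact adj_ll x u v a b h3
  · rw [adj_lr] at h3
    have h4 := h (u, v)
    unfold Solves at h4
    simp only [Sum.elim_inl, Sum.elim_inr] at h1 h2 h4
    apply h2
    rw [h3, ← h1, ← h4]
    ring
  · rw [adj_rl] at h3
    have h4 := h (v, u)
    unfold Solves at h4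
    simp only [Sum.elim_inl, Sum.elim_inr] at h1 h2 h4
    apply h2
    have h5 : b = a - x (v, u) := by rw [h3]; ring
    rw [h5, ← h1, ← h4]
    ring
  · exact adj_rr x u v a b h3

lemma value_of_yes [NeZero q] (hn : 1 ≤ n) {x : Fin n × Fin n → ZMod q} {S : Finset (Vtx n q)}
    (hS : S.card = 2 * n) (h : cut (cover x) S = 0) : ValueOne x := by
  classical
  have hne : S.Nonempty := by
    rw [← card_pos, hS]; omega
  obtain ⟨u0, a0, h0⟩ : ∃ u0 a0, (Sum.inl u0, a0) ∈ S := by
    obtain ⟨⟨u | v, a⟩, hs⟩ := hne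
    · exact ⟨u, a, hs⟩
    · exact ⟨⟨0, hn⟩, a - x (⟨0, hn⟩, v), closed_of_cut h hs ((adj_rl x _ v _ a).2 (by ring))⟩
  obtain ⟨M, hM⟩ : ∃ M : Fin n → ZMod q, M = fun v => a0 + x (u0, v) := ⟨_, rfl⟩
  have h1 : ∀ v, (Sum.inr v, M v) ∈ S := fun v =>
    closed_of_cut h h0 ((adj_lr x u0 v a0 _).2 (by rw [hM]))
  obtain ⟨L, hL⟩ : ∃ L : Fin n → ZMod q, L = fun u => M ⟨0, hn⟩ - x (u, ⟨0, hn⟩) := ⟨_, rfl⟩
  have h2 : ∀ u, (Sum.inl u, L u) ∈ S := fun u =>
    closed_of_cut h (h1 ⟨0, hn⟩) ((adj_rl x u ⟨0, hn⟩ _ _).2 (by rw [hL]; ring))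
  have h3 : graphOf (Sum.elim L M) = S := by
    refine eq_of_subset_of_card_le ?_ (by rw [hS, card_graphOf])
    intro s hs
    rw [mem_graphOf] at hs
    rcases s with ⟨u | v, a⟩
    · simp only [Sum.elim_inl] at hs
      rw [← hs]; exact h2 u
    · simp only [Sum.elim_inr] at hs
      rw [← hs]; exact h1 v
  refine ⟨L, M, fun e => ?_⟩
  have h4 := closed_of_cut h (h2 e.1) ((adj_lr x e.1 e.2 (L e.1) _).2 rfl)
  rw [← h3, mem_graphOf] at h4
  simp only [Sum.elim_inr] at h4
  unfold Solves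
  rw [h4]
  ring

/-- the value one games are the covers with a set of expansion zero -/
lemma yes_iff [NeZero q] (hn : 1 ≤ n) (x : Fin n × Fin n → ZMod q) :
    ValueOne x ↔ ∃ S : Finset (Vtx n q), S.card = 2 * n ∧ expansion (cover x) n S = 0 := by
  have hnR : (1 : ℝ) ≤ n := by exact_mod_cast hn
  constructor
  · intro h
    obtain ⟨S, h1, h2⟩ := yes_of_value h
    refine ⟨S, h1, ?_⟩
    unfold expansion
    rw [h2]
    simp
  · rintro ⟨S, h1, h2⟩
    refine value_of_yes hn h1 ?_
    unfold expansion at h2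
    rw [h1, div_eq_zero_iff] at h2
    rcases h2 with h2 | h2
    · exact_mod_cast h2
    · exfalso
      push_cast at h2
      have : (0 : ℝ) < n * (2 * n) := by positivity
      linarith

lemma nbr_card [NeZero q] (x : Fin n × Fin n → ZMod q) (s : Vtx n q) :
    Nat.card {t // (cover x).Adj s t} = n := by
  classical
  have h : (Nat.card {t // (cover x).Adj s t} : ℝ) = n := by
    rw [Nat.card_eq_fintype_card, Fintype.card_subtype, card_filter]
    push_cast
    rcases s with ⟨u | v, a⟩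
    · rw [sum_nbr_l x (fun _ => 1) u a, sum_const, card_univ, Fintype.card_fin, nsmul_eq_mul, mul_one]
    · rw [sum_nbr_r x (fun _ => 1) v a, sum_const, card_univ, Fintype.card_fin, nsmul_eq_mul, mul_one]
  exact_mod_cast h

lemma card_vtx [NeZero q] : Nat.card (Vtx n q) = 2 * n * q := by
  rw [Nat.card_eq_fintype_card, Fintype.card_prod, Fintype.card_sum, Fintype.card_fin, ZMod.card]
  ring

/-- every cover has a set of expansion at most `1 - 1 / q` -/
lemma small_set [NeZero q] (hn : 1 ≤ n) (x : Fin n × Fin n → ZMod q) :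
    ∃ S : Finset (Vtx n q), S.card = 2 * n ∧ expansion (cover x) n S ≤ 1 - 1 / (q : ℝ) := by
  classical
  have hnR : (1 : ℝ) ≤ n := by exact_mod_cast hn
  have hq0 : (0 : ℝ) < q := by exact_mod_cast Nat.pos_of_ne_zero (NeZero.ne q)
  obtain ⟨c, hc⟩ : ∃ c : ZMod q, (n : ℝ) ^ 2 / q ≤ ((univ.filter fun e => x e = c).card : ℝ) := by
    by_contra hcon
    push Not at hcon
    have h2 : ∑ c : ZMod q, ((univ.filter fun e => x e = c).card : ℝ) = (n : ℝ) ^ 2 := by
      have := card_eq_sum_card_fiberwise (s := (univ : Finset (Fin n × Fin n))) (f := x)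
        (t := univ) (fun _ _ => mem_univ _)
      rw [card_univ, Fintype.card_prod, Fintype.card_fin] at this
      rw [sq]
      exact_mod_cast this.symm
    have h3 := sum_lt_sum_of_nonempty (univ_nonempty : (univ : Finset (ZMod q)).Nonempty)
      (fun c _ => hcon c)
    rw [h2, sum_const, card_univ, ZMod.card, nsmul_eq_mul, mul_div_cancel₀ _ hq0.ne'] at h3
    exact lt_irrefl _ h3
  refine ⟨graphOf (Sum.elim (fun _ => 0) fun _ => c), card_graphOf _, ?_⟩
  rw [expansion_eq hn x _ (card_graphOf _)]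
  have h1 : inner x (graphOf (Sum.elim (fun _ => 0) fun _ => c)) =
      ((univ.filter fun e => x e = c).card : ℝ) := by
    unfold inner
    rw [card_filter]
    push_cast
    refine sum_congr rfl fun e _ => ?_
    rw [sum_eq_single (0 : ZMod q)]
    · unfold chi
      simp only [mem_graphOf, Sum.elim_inl, Sum.elim_inr, if_true, one_mul, zero_add]
      by_cases h : x e = c
      · rw [if_pos h, if_pos h.symm]
      · rw [if_neg h, if_neg fun h' => h h'.symm]
    · intro a _ ha
      unfold chi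
      simp only [mem_graphOf, Sum.elim_inl]
      rw [if_neg fun h => ha h.symm, zero_mul]
    · intro h
      exact absurd (mem_univ _) h
  rw [h1]
  have h2 : 1 / (q : ℝ) ≤ ((univ.filter fun e => x e = c).card : ℝ) / (n : ℝ) ^ 2 := by
    rw [le_div_iff₀ (by positivity)]
    calc 1 / (q : ℝ) * (n : ℝ) ^ 2 = (n : ℝ) ^ 2 / q := by ring
      _ ≤ _ := hc
  linarith

end Pool.Agent.Q329.ST
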