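import Pool.Agent.Q329.ST.Side
import Pool.Agent.Q329.ST.Cover

/-! Mixtures of split cyclic covers are small-set expanders (helper329). -/

set_option autoImplicit false
set_option linter.unusedSectionVars false
set_option linter.unusedVariables false

open Finset Pool.Agent.TH700.PA
open Pool.Agent.Q329.LT (Lab zz heavy_pairs)

namespace Pool.Agent.Q329.ST

variable {n q t : ℕ}

/-- the labels, left first -/
def phi (b : Fin t → Lab n q) : (Fin t × Fin n → ZMod q) × (Fin t × Fin n → ZMod q) :=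
  (fun i => b i.1 (Sum.inl i.2), fun i => b i.1 (Sum.inr i.2))

lemma phi_inj : Function.Injective fun b : Fin t → Lab n q => phi b := by
  intro b b' h
  funext j w
  have h1 := congrArg Prod.fst h
  have h2 := congrArg Prod.snd h
  rcases w with u | v
  · exact congrFun h1 (j, u)
  · exact congrFun h2 (j, v)

/-- the number of edges inside `S` over `e` for the labels `a`, `k` of its ends -/
noncomputable def wt [NeZero q] (S : Finset (Vtx n q)) (e : Fin n × Fin n) (a k : ZMod q) : ℝ :=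
  ∑ y, chi S (Sum.inl e.1, y) * chi S (Sum.inr e.2, y + (k - a))

/-- `q` times the mean of `wt` -/
noncomputable def wE [NeZero q] (S : Finset (Vtx n q)) (e : Fin n × Fin n) : ℝ :=
  (∑ y, chi S (Sum.inl e.1, y)) * ∑ y, chi S (Sum.inr e.2, y)

lemma wt_nonneg [NeZero q] (S : Finset (Vtx n q)) (e : Fin n × Fin n) (a k : ZMod q) :
    0 ≤ wt S e a k := sum_nonneg fun y _ => mul_nonneg (chi_nonneg _ _) (chi_nonneg _ _)

lemma wt_le [NeZero q] (S : Finset (Vtx n q)) (e : Fin n × Fin n) (a k : ZMod q) :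
    wt S e a k ≤ q := by
  unfold wt
  calc _ ≤ ∑ _y : ZMod q, (1 : ℝ) := sum_le_sum fun y _ =>
        mul_le_one₀ (chi_le _ _) (chi_nonneg _ _) (chi_le _ _)
    _ = q := by rw [sum_const, card_univ, ZMod.card, nsmul_eq_mul, mul_one]

lemma sum_wt_r [NeZero q] (S : Finset (Vtx n q)) (e : Fin n × Fin n) (a : ZMod q) :
    ∑ k, wt S e a k = wE S e := by
  unfold wt wE
  rw [sum_comm, sum_mul]
  refine sum_congr rfl fun y _ => ?_
  rw [← mul_sum]
  congr 1
  rw [← Equiv.sum_comp (Equiv.addRight (y - a)) fun z => chi S (Sum.inr e.2, z)]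
  refine sum_congr rfl fun k _ => ?_
  congr 2
  simp only [Equiv.coe_addRight]
  ring

lemma sum_wt_l [NeZero q] (S : Finset (Vtx n q)) (e : Fin n × Fin n) (k : ZMod q) :
    ∑ a, wt S e a k = wE S e := by
  unfold wt wE
  rw [sum_comm, sum_mul]
  refine sum_congr rfl fun y _ => ?_
  rw [← mul_sum]
  congr 1
  rw [← Equiv.sum_comp (Equiv.subLeft (y + k)) fun z => chi S (Sum.inr e.2, z)]
  refine sum_congr rfl fun a _ => ?_
  congr 2
  simp only [Equiv.subLeft_apply]
  ring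

lemma wE_nonneg [NeZero q] (S : Finset (Vtx n q)) (e : Fin n × Fin n) : 0 ≤ wE S e :=
  mul_nonneg (sum_nonneg fun _ _ => chi_nonneg _ _) (sum_nonneg fun _ _ => chi_nonneg _ _)

lemma sum_wE [NeZero q] (S : Finset (Vtx n q)) (hS : S.card = 2 * n) :
    ∑ e, wE S e ≤ (n : ℝ) ^ 2 := by
  unfold wE
  rw [Fintype.sum_prod_type]
  simp only
  rw [← Finset.sum_mul_sum]
  have h6 := sum_chi S
  rw [Fintype.sum_prod_type, Fintype.sum_sum_type, hS] at h6
  push_cast at h6
  nlinarith [sq_nonneg ((∑ u : Fin n, ∑ y, chi S (Sum.inl u, y)) -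
    ∑ v : Fin n, ∑ y, chi S (Sum.inr v, y))]

lemma inner_mix [NeZero q] (p : Fin n × Fin n → Fin t) (b : Fin t → Lab n q)
    (S : Finset (Vtx n q)) : inner (mixp p zz b) S =
      ∑ e, wt S e ((phi b).1 (p e, e.1)) ((phi b).2 (p e, e.2)) := rfl

lemma light_bound [NeZero q] (hq : 2 ≤ q) {η : ℝ} (hη : 0 < η) (hη1 : η ≤ 1) {h : ℕ} (hh : 1 ≤ h)
    (c2 : 72 * (q : ℝ) ^ 2 * h ≤ η ^ 2 * n) (E : Finset (Fin n × Fin n))
    (f g : Fin n × Fin n → Fin t × Fin n)
    (hE : ∀ i, (E.filter fun e => g e = i).card ≤ h)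
    (w : Fin n × Fin n → ZMod q → ZMod q → ℝ) (W : Fin n × Fin n → ℝ)
    (hw0 : ∀ e a k, 0 ≤ w e a k) (hwM : ∀ e a k, w e a k ≤ q) (hW : ∀ e a, ∑ k, w e a k = W e)
    (hWs : ∑ e ∈ E, W e ≤ (n : ℝ) ^ 2)
    (B : Finset ((Fin t × Fin n → ZMod q) × (Fin t × Fin n → ZMod q)))
    (hB : ∀ c ∈ B, (∑ e ∈ E, W e) / q + η * (n : ℝ) ^ 2 / 3 ≤
      ∑ e ∈ E, w e (c.1 (f e)) (c.2 (g e))) :
    (B.card : ℝ) * Real.exp (4 * q * n) ≤ (q : ℝ) ^ (2 * n * t) := by
  have hhR : (1 : ℝ) ≤ h := by exact_mod_cast hh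
  have hqR : (2 : ℝ) ≤ q := by exact_mod_cast hq
  have h1 := one_side (κ := ZMod q) E f g w W (q : ℝ) (h : ℝ) (η / (3 * h * q))
    (η * (n : ℝ) ^ 2 / 3) (by positivity) hw0 hwM hW (fun i => by exact_mod_cast hE i)
    (by positivity) (by
      rw [div_mul_eq_mul_div, div_le_one (by positivity)]
      have : (0 : ℝ) ≤ h * q := by positivity
      nlinarith) B (fun c hc => by
      rw [ZMod.card]
      exact hB c hc)
  rw [ZMod.card] at h1
  have hX : 4 * (q : ℝ) * n ≤ η / (3 * h * q) * (η * (n : ℝ) ^ 2 / 3) -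
      (η / (3 * h * q)) ^ 2 * (h * q) * ((∑ e ∈ E, W e) / q) := by
    have e1 : (∑ e ∈ E, W e) / q ≤ (n : ℝ) ^ 2 / 2 := by
      refine (div_le_div_of_nonneg_right hWs (by positivity)).trans ?_
      exact div_le_div_of_nonneg_left (by positivity) (by norm_num) hqR
    have e2 : (η / (3 * h * q)) ^ 2 * (h * q) * ((∑ e ∈ E, W e) / q) ≤
        (η / (3 * h * q)) ^ 2 * (h * q) * ((n : ℝ) ^ 2 / 2) :=
      mul_le_mul_of_nonneg_left e1 (by positivity)
    have e3 : η / (3 * h * q) * (η * (n : ℝ) ^ 2 / 3) -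
        (η / (3 * h * q)) ^ 2 * (h * q) * ((n : ℝ) ^ 2 / 2) =
        (η ^ 2 * n) * n / (18 * h * q) := by
      field_simp
      ring
    have e4 : 4 * (q : ℝ) * n ≤ (η ^ 2 * n) * n / (18 * h * q) := by
      rw [le_div_iff₀ (by positivity)]
      calc 4 * (q : ℝ) * n * (18 * h * q) = (72 * (q : ℝ) ^ 2 * h) * n := by ring
        _ ≤ (η ^ 2 * n) * n := mul_le_mul_of_nonneg_right c2 (Nat.cast_nonneg _)
    linarith
  have h3 : (B.card : ℝ) * Real.exp (4 * q * n) ≤ (B.card : ℝ) *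
      Real.exp (η / (3 * h * q) * (η * (n : ℝ) ^ 2 / 3) -
      (η / (3 * h * q)) ^ 2 * (h * q) * ((∑ e ∈ E, W e) / q)) :=
    mul_le_mul_of_nonneg_left (Real.exp_le_exp.mpr hX) (Nat.cast_nonneg _)
  refine h3.trans (h1.trans (le_of_eq ?_))
  rw [Fintype.card_prod, Fintype.card_fin, Fintype.card_fin]
  congr 1
  ring

open Classical in
/-- Most mixtures are small-set expanders. -/
theorem few_bad [NeZero q] (hq : 2 ≤ q) {η : ℝ} (hη : 0 < η) (hη1 : η ≤ 1) {h θ : ℕ} (hn : 1 ≤ n)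
    (hh : 1 ≤ h) (c2 : 72 * (q : ℝ) ^ 2 * h ≤ η ^ 2 * n)
    (c3 : 3 * (q * ((t : ℝ) * (2 * θ) ^ 2)) ≤ η * (n : ℝ) ^ 2 * h ^ 2)
    (p : Fin n × Fin n → Fin t) (hp : ∀ j, (univ.filter (fun e => p e = j)).card ≤ 2 * θ) :
    ∃ B : Finset (Fin t → Lab n q), (∀ b, (∃ S : Finset (Vtx n q), S.card = 2 * n ∧
        (1 / q + η) * (n : ℝ) ^ 2 < inner (mixp p zz b) S) → b ∈ B) ∧
      B.card * 2 ^ n ≤ Fintype.card (Lab n q) ^ t := by
  have hhR : (1 : ℝ) ≤ h := by exact_mod_cast hh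
  have hqR : (2 : ℝ) ≤ q := by exact_mod_cast hq
  obtain ⟨P1, hP1⟩ : ∃ P1 : Fin n × Fin n → Prop, P1 = fun e =>
    (univ.filter fun e' => p e' = p e ∧ e'.2 = e.2).card ≤ h := ⟨_, rfl⟩
  obtain ⟨P2, hP2⟩ : ∃ P2 : Fin n × Fin n → Prop, P2 = fun e =>
    (univ.filter fun e' => p e' = p e ∧ e'.1 = e.1).card ≤ h := ⟨_, rfl⟩
  obtain ⟨E1, hE1⟩ : ∃ E1 : Finset (Fin n × Fin n), E1 = univ.filter P1 := ⟨_, rfl⟩
  obtain ⟨E2, hE2⟩ : ∃ E2 : Finset (Fin n × Fin n), E2 = univ.filter (fun e => ¬ P1 e ∧ P2 e) :=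
    ⟨_, rfl⟩
  obtain ⟨E3, hE3⟩ : ∃ E3 : Finset (Fin n × Fin n), E3 = univ.filter (fun e => ¬ P1 e ∧ ¬ P2 e) :=
    ⟨_, rfl⟩
  have hP1' : ∀ e, P1 e ↔ (univ.filter fun e' => p e' = p e ∧ e'.2 = e.2).card ≤ h := by
    intro e; rw [hP1]
  have hP2' : ∀ e, P2 e ↔ (univ.filter fun e' => p e' = p e ∧ e'.1 = e.1).card ≤ h := by
    intro e; rw [hP2]
  have m1 : ∀ e, e ∈ E1 ↔ P1 e := by intro e; rw [hE1, mem_filter]; simp
  have m2 : ∀ e, e ∈ E2 ↔ ¬ P1 e ∧ P2 e := by intro e; rw [hE2, mem_filter]; simp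
  have m3 : ∀ e, e ∈ E3 ↔ ¬ P1 e ∧ ¬ P2 e := by intro e; rw [hE3, mem_filter]; simp
  -- the heavy part is small
  have h3 : (q : ℝ) * E3.card ≤ η * (n : ℝ) ^ 2 / 3 := by
    have e1 : E3.card * h ^ 2 ≤ t * (2 * θ) ^ 2 := by
      have e2 := card_eq_sum_card_fiberwise (s := E3) (f := p) (t := univ) (fun _ _ => mem_univ _)
      rw [e2, sum_mul]
      calc ∑ j, (E3.filter fun e => p e = j).card * h ^ 2 ≤ ∑ _j : Fin t, (2 * θ) ^ 2 := by
            refine sum_le_sum fun j _ => ?_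
            refine heavy_pairs (univ.filter fun e => p e = j) (hp j) _ ?_
            intro e he
            obtain ⟨he1, he2⟩ := mem_filter.mp he
            rw [m3, hP1', hP2', not_le, not_le] at he1
            obtain ⟨he3, he4⟩ := he1
            rw [he2] at he3 he4
            rw [filter_filter, filter_filter]
            exact ⟨he4, he3⟩
        _ = _ := by rw [sum_const, card_univ, Fintype.card_fin, smul_eq_mul]
    have e3 : (E3.card : ℝ) * h ^ 2 ≤ t * (2 * θ) ^ 2 := by exact_mod_cast e1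
    have hh2 : (0 : ℝ) < (h : ℝ) ^ 2 := by positivity
    refine le_of_mul_le_mul_right ?_ hh2
    have e4 : (q : ℝ) * ((E3.card : ℝ) * (h : ℝ) ^ 2) ≤ (q : ℝ) * ((t : ℝ) * (2 * θ) ^ 2) :=
      mul_le_mul_of_nonneg_left e3 (by positivity)
    calc (q : ℝ) * (E3.card : ℝ) * (h : ℝ) ^ 2 = (q : ℝ) * ((E3.card : ℝ) * (h : ℝ) ^ 2) := by ring
      _ ≤ (q : ℝ) * ((t : ℝ) * (2 * θ) ^ 2) := e4
      _ ≤ η * (n : ℝ) ^ 2 / 3 * (h : ℝ) ^ 2 := by linarith
  -- bad labels
  obtain ⟨B1, hB1⟩ : ∃ B1 : Finset (Vtx n q) →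
      Finset ((Fin t × Fin n → ZMod q) × (Fin t × Fin n → ZMod q)),
    B1 = fun S => univ.filter (fun c => S.card = 2 * n ∧
      (∑ e ∈ E1, wE S e) / q + η * (n : ℝ) ^ 2 / 3 ≤
      ∑ e ∈ E1, wt S e (c.1 (p e, e.1)) (c.2 (p e, e.2))) := ⟨_, rfl⟩
  obtain ⟨B2, hB2⟩ : ∃ B2 : Finset (Vtx n q) →
      Finset ((Fin t × Fin n → ZMod q) × (Fin t × Fin n → ZMod q)),
    B2 = fun S => univ.filter (fun c => S.card = 2 * n ∧
      (∑ e ∈ E2, wE S e) / q + η * (n : ℝ) ^ 2 / 3 ≤
      ∑ e ∈ E2, wt S e (c.2 (p e, e.1)) (c.1 (p e, e.2))) := ⟨_, rfl⟩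
  have hpos : (0 : ℝ) ≤ (q : ℝ) ^ (2 * n * t) := by positivity
  have hsub : ∀ (S : Finset (Vtx n q)) (E : Finset (Fin n × Fin n)), S.card = 2 * n →
      ∑ e ∈ E, wE S e ≤ (n : ℝ) ^ 2 := fun S E hS =>
    (sum_le_sum_of_subset_of_nonneg (subset_univ _) fun e _ _ => wE_nonneg S e).trans (sum_wE S hS)
  have hB1c : ∀ S, ((B1 S).card : ℝ) * Real.exp (4 * q * n) ≤ (q : ℝ) ^ (2 * n * t) := by
    intro S
    by_cases hS : S.card = 2 * n
    · refine light_bound hq hη hη1 hh c2 E1 (fun e => (p e, e.1)) (fun e => (p e, e.2)) ?_ (wt S)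
        (wE S) (wt_nonneg S) (wt_le S) (sum_wt_r S) (hsub S E1 hS) (B1 S)
        (fun c hc => by
          rw [hB1] at hc
          exact (mem_filter.mp hc).2.2)
      intro i
      rcases (E1.filter fun e => (p e, e.2) = i).eq_empty_or_nonempty with he | ⟨e0, he0⟩
      · rw [he]
        exact Nat.zero_le _
      · obtain ⟨he1, he2⟩ := mem_filter.mp he0
        rw [m1, hP1'] at he1
        refine le_trans (card_le_card ?_) he1
        intro e he
        have he3 := (mem_filter.mp he).2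
        rw [← he2] at he3
        exact mem_filter.mpr ⟨mem_univ _, (Prod.mk.inj he3).1, (Prod.mk.inj he3).2⟩
    · have : B1 S = ∅ := by
        rw [hB1]
        exact filter_eq_empty_iff.mpr fun c _ hc => hS hc.1
      rw [this, card_empty, Nat.cast_zero, zero_mul]
      exact hpos
  have hB2c : ∀ S, ((B2 S).card : ℝ) * Real.exp (4 * q * n) ≤ (q : ℝ) ^ (2 * n * t) := by
    intro S
    by_cases hS : S.card = 2 * n
    · refine light_bound hq hη hη1 hh c2 E2 (fun e => (p e, e.2)) (fun e => (p e, e.1)) ?_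
        (fun e a k => wt S e k a)
        (wE S) (fun e a k => wt_nonneg S e k a) (fun e a k => wt_le S e k a)
        (fun e a => sum_wt_l S e a) (hsub S E2 hS) (B2 S)
        (fun c hc => by
          rw [hB2] at hc
          exact (mem_filter.mp hc).2.2)
      intro i
      rcases (E2.filter fun e => (p e, e.1) = i).eq_empty_or_nonempty with he | ⟨e0, he0⟩
      · rw [he]
        exact Nat.zero_le _
      · obtain ⟨he1, he2⟩ := mem_filter.mp he0
        rw [m2, hP2'] at he1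
        refine le_trans (card_le_card ?_) he1.2
        intro e he
        have he3 := (mem_filter.mp he).2
        rw [← he2] at he3
        exact mem_filter.mpr ⟨mem_univ _, (Prod.mk.inj he3).1, (Prod.mk.inj he3).2⟩
    · have : B2 S = ∅ := by
        rw [hB2]
        exact filter_eq_empty_iff.mpr fun c _ hc => hS hc.1
      rw [this, card_empty, Nat.cast_zero, zero_mul]
      exact hpos
  refine ⟨univ.biUnion fun S : Finset (Vtx n q) =>
    (univ.filter fun b => phi b ∈ B1 S) ∪ (univ.filter fun b => (phi b).swap ∈ B2 S),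
    fun b hb => ?_, ?_⟩
  · obtain ⟨S, hS, hlt⟩ := hb
    rw [mem_biUnion]
    refine ⟨S, mem_univ _, ?_⟩
    obtain ⟨c, hc⟩ : ∃ c, c = phi b := ⟨_, rfl⟩
    rw [mem_union, mem_filter, mem_filter, ← hc, hB1, hB2, mem_filter, mem_filter]
    rw [inner_mix, ← hc] at hlt
    have hsplit : ∀ F : Fin n × Fin n → ℝ, ∑ e, F e = ∑ e ∈ E1, F e + ∑ e ∈ E2, F e + ∑ e ∈ E3, F e := by
      intro F
      rw [hE1, hE2, hE3, ← sum_filter_add_sum_filter_not univ P1]
      rw [← sum_filter_add_sum_filter_not (univ.filter fun e => ¬ P1 e) P2]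
      rw [filter_filter, filter_filter, add_assoc]
    rw [hsplit] at hlt
    have h5 : ∑ e ∈ E3, wt S e (c.1 (p e, e.1)) (c.2 (p e, e.2)) ≤ η * (n : ℝ) ^ 2 / 3 := by
      refine le_trans (sum_le_sum fun e _ => wt_le S e _ _) ?_
      rw [sum_const, nsmul_eq_mul, mul_comm]
      exact h3
    have h7 : (∑ e ∈ E1, wE S e) / q + (∑ e ∈ E2, wE S e) / q ≤ 1 / q * (n : ℝ) ^ 2 := by
      rw [← add_div, one_div_mul_eq_div]
      refine div_le_div_of_nonneg_right ?_ (by positivity)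
      have e1 := sum_wE S hS
      rw [hsplit] at e1
      have e2 : 0 ≤ ∑ e ∈ E3, wE S e := sum_nonneg fun e _ => wE_nonneg S e
      linarith
    by_contra hcon
    push Not at hcon
    obtain ⟨g1, g2⟩ := hcon
    have g1' := g1 (mem_univ _) (mem_univ _) hS
    have g2' := g2 (mem_univ _) (mem_univ _) hS
    simp only [Prod.snd_swap, Prod.fst_swap] at g2'
    have h10 : (1 / (q : ℝ) + η) * (n : ℝ) ^ 2 = 1 / q * (n : ℝ) ^ 2 + η * (n : ℝ) ^ 2 := by ring
    rw [h10] at hlt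
    linarith
  · have hc1 : ∀ S, (univ.filter fun b : Fin t → Lab n q => phi b ∈ B1 S).card ≤ (B1 S).card := by
      intro S
      refine card_le_card_of_injOn (fun b => phi b) (fun b hb => ?_) (phi_inj.injOn)
      exact (mem_filter.mp (mem_coe.mp hb)).2
    have hc2 : ∀ S,
        (univ.filter fun b : Fin t → Lab n q => (phi b).swap ∈ B2 S).card ≤ (B2 S).card := by
      intro S
      refine card_le_card_of_injOn (fun b => (phi b).swap) (fun b hb => ?_)
        (fun b _ b' _ hbb => ?_)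
      · exact (mem_filter.mp (mem_coe.mp hb)).2
      · exact phi_inj (Prod.swap_injective hbb)
    have hcard : Fintype.card (Lab n q) = q ^ (2 * n) := by
      rw [Fintype.card_fun, Fintype.card_sum, Fintype.card_fin, ZMod.card, two_mul]
    have hcardS : Fintype.card (Finset (Vtx n q)) = 2 ^ (2 * n * q) := by
      rw [Fintype.card_finset, Fintype.card_prod, Fintype.card_sum, Fintype.card_fin, ZMod.card]
      congr 1
      ring
    obtain ⟨BB, hBB⟩ : ∃ BB : Finset (Fin t → Lab n q), BB = univ.biUnion fun S :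
      Finset (Vtx n q) =>
      (univ.filter fun b => phi b ∈ B1 S) ∪ (univ.filter fun b => (phi b).swap ∈ B2 S) :=
      ⟨_, rfl⟩
    rw [← hBB]
    have h12 : (BB.card : ℝ) * Real.exp (4 * q * n) ≤
        (2 : ℝ) ^ (2 * n * q) * (2 * (q : ℝ) ^ (2 * n * t)) := by
      have e1 : (BB.card : ℝ) ≤ ∑ S : Finset (Vtx n q), (((B1 S).card : ℝ) + (B2 S).card) := by
        have e2 : BB.card ≤ ∑ S : Finset (Vtx n q), ((B1 S).card + (B2 S).card) := by
          rw [hBB]
          refine card_biUnion_le.trans ?_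
          refine sum_le_sum fun S _ => ?_
          exact (card_union_le _ _).trans (Nat.add_le_add (hc1 S) (hc2 S))
        exact_mod_cast e2
      calc (BB.card : ℝ) * Real.exp (4 * q * n) ≤
          (∑ S : Finset (Vtx n q), (((B1 S).card : ℝ) + (B2 S).card)) * Real.exp (4 * q * n) :=
            mul_le_mul_of_nonneg_right e1 (Real.exp_pos _).le
        _ = ∑ S : Finset (Vtx n q), (((B1 S).card : ℝ) * Real.exp (4 * q * n) +
            ((B2 S).card : ℝ) * Real.exp (4 * q * n)) := by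
            rw [sum_mul]
            exact sum_congr rfl fun S _ => by ring
        _ ≤ ∑ _S : Finset (Vtx n q), (2 * (q : ℝ) ^ (2 * n * t)) := by
            refine sum_le_sum fun S _ => ?_
            have := hB1c S
            have := hB2c S
            linarith
        _ = _ := by
            rw [sum_const, card_univ, hcardS, nsmul_eq_mul]
            push_cast
            ring
    have h13 : (2 : ℝ) ^ (2 * n * q) * (2 * 2 ^ n) ≤ Real.exp (4 * q * n) := by
      have e1 : (2 : ℝ) ≤ Real.exp 1 := by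
        have := Real.add_one_le_exp (1 : ℝ)
        linarith
      have e2 : Real.exp (4 * q * n) = Real.exp 1 ^ (4 * q * n) := by
        rw [← Real.exp_nat_mul]
        congr 1
        push_cast
        ring
      rw [e2]
      calc (2 : ℝ) ^ (2 * n * q) * (2 * 2 ^ n) ≤ (2 : ℝ) ^ (2 * n * q) * (2 ^ n * 2 ^ n) := by
            refine mul_le_mul_of_nonneg_left ?_ (by positivity)
            refine mul_le_mul_of_nonneg_right ?_ (by positivity)
            calc (2 : ℝ) = 2 ^ 1 := by norm_num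
              _ ≤ 2 ^ n := pow_le_pow_right₀ (by norm_num) hn
        _ = (2 : ℝ) ^ (2 * n * q + (n + n)) := by rw [pow_add, pow_add]
        _ ≤ (2 : ℝ) ^ (4 * q * n) := by
            refine pow_le_pow_right₀ (by norm_num) ?_
            have : n * 2 ≤ n * q := Nat.mul_le_mul_left _ hq
            nlinarith
        _ ≤ _ := pow_le_pow_left₀ (by positivity) e1 _
    have h14 : (BB.card : ℝ) * 2 ^ n ≤ (q : ℝ) ^ (2 * n * t) := by
      have hpos : (0 : ℝ) < (2 : ℝ) ^ (2 * n * q) * 2 := by positivity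
      refine le_of_mul_le_mul_left ?_ hpos
      calc (2 : ℝ) ^ (2 * n * q) * 2 * ((BB.card : ℝ) * 2 ^ n) =
          BB.card * ((2 : ℝ) ^ (2 * n * q) * (2 * 2 ^ n)) := by ring
        _ ≤ BB.card * Real.exp (4 * q * n) := mul_le_mul_of_nonneg_left h13 (by positivity)
        _ ≤ _ := h12
        _ = _ := by ring
    rw [hcard, ← pow_mul]
    exact_mod_cast h14

end Pool.Agent.Q329.ST
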