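import Pool.Agent.Q329.LT.Main
import Pool.Agent.Q329.ST.Game

/-! Tensor networks for small-set expansion in cyclic covers (helper329). -/

set_option autoImplicit false
set_option linter.unusedSectionVars false
set_option linter.unusedVariables false

open Finset Pool.Agent.TH700.PA
open Pool.Agent.Q329.LT (Lab zz zz_one)

namespace Pool.Agent.Q329.ST

theorem lower (q : ℕ) [NeZero q] (hq : 2 ≤ q) (ε : ℝ) (hε : 0 < ε) :
    ∃ D : ℕ, 0 < D ∧ ∀ n : ℕ, D ≤ n →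
    ∀ (μ : ℕ) (R : Type) [Fintype R] [Nonempty R] (K W : R → Type) [∀ ρ, Field (K ρ)]
      [∀ ρ, Fintype (W ρ)] (T : ∀ ρ, Net (K ρ) (Fin n × Fin n) (ZMod q) (W ρ))
      (a : ∀ ρ, W ρ → K ρ),
      (∀ ρ e, (T ρ).reads e ≤ 1) →
      (∀ ρ x, (∀ S : Finset (Vtx n q), S.card = 2 * n →
        1 - 1 / (q : ℝ) - ε ≤ expansion (cover x) n S) → (T ρ).value (a ρ) x = 0) →
      (∀ x, (∃ S : Finset (Vtx n q), S.card = 2 * n ∧ expansion (cover x) n S = 0) →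
        Nat.card R ≤ 2 ^ μ * Nat.card {ρ // (T ρ).value (a ρ) x ≠ 0}) →
      ∃ ρ, 2 ^ n ≤ (2 ^ μ * Fintype.card (W ρ)) ^ D := by
  classical
  have hqR : (2 : ℝ) ≤ q := by exact_mod_cast hq
  obtain ⟨η, hη, hη1, hηδ⟩ : ∃ η : ℝ, 0 < η ∧ η ≤ 1 ∧ η ≤ ε :=
    ⟨min ε 1, lt_min hε one_pos, min_le_right _ _, min_le_left _ _⟩
  obtain ⟨A, hA⟩ : ∃ A : ℕ, A = ⌈72 * (q : ℝ) ^ 2 / η ^ 2⌉₊ := ⟨_, rfl⟩
  have hA1 : 72 * (q : ℝ) ^ 2 / η ^ 2 ≤ A := by rw [hA]; exact Nat.le_ceil _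
  have hA2 : 72 * (q : ℝ) ^ 2 ≤ η ^ 2 * A := by
    rw [div_le_iff₀ (by positivity)] at hA1
    linarith
  have hA0 : 0 < A := by
    have : (0 : ℝ) < A := lt_of_lt_of_le (by positivity) hA1
    exact_mod_cast this
  obtain ⟨C, hC⟩ : ∃ C : ℕ, C = ⌈240 * (q : ℝ) * (A : ℝ) ^ 2 / η⌉₊ := ⟨_, rfl⟩
  have hC1 : 240 * (q : ℝ) * (A : ℝ) ^ 2 / η ≤ C := by rw [hC]; exact Nat.le_ceil _
  have hAR : (0 : ℝ) < A := by exact_mod_cast hA0
  have hC2 : 240 * (q : ℝ) * (A : ℝ) ^ 2 ≤ η * C := by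
    rw [div_le_iff₀ hη] at hC1
    linarith
  have hC0 : 0 < C := by
    have : (0 : ℝ) < C := lt_of_lt_of_le (by positivity) hC1
    exact_mod_cast this
  obtain ⟨t, ht⟩ : ∃ t, t = 4 * C + 1 := ⟨_, rfl⟩
  refine ⟨A + C + 6 * (t + 1) + 2 * (t + 1) ^ 2, by omega, ?_⟩
  intro n hn μ R _ _ K W _ _ T a h1 hno hyes
  have hnA : A ≤ n := by
    have := Nat.zero_le (2 * (t + 1) ^ 2)
    omega
  have hnC : C ≤ n := by
    have := Nat.zero_le (2 * (t + 1) ^ 2)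
    omega
  have hnt : 2 * (t + 1) ^ 2 ≤ n := by omega
  have hn1 : 1 ≤ n := by omega
  have hnR : (1 : ℝ) ≤ n := by exact_mod_cast hn1
  obtain ⟨h, hh⟩ : ∃ h, h = n / A := ⟨_, rfl⟩
  have hh1 : 1 ≤ h := by
    rw [hh]
    exact Nat.div_pos hnA hA0
  have hhA : A * h ≤ n := by
    rw [hh]
    exact Nat.mul_div_le n A
  have hhn : n ≤ 2 * A * h := by
    have h2 : n < A * (h + 1) := by
      rw [hh]
      exact Nat.lt_mul_div_succ n hA0
    have h3 : A * (h + 1) ≤ 2 * A * h := by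
      have h4 : A * 1 ≤ A * h := Nat.mul_le_mul_left _ hh1
      have h5 : A * (h + 1) = A * h + A := by ring
      have h6 : 2 * A * h = A * h + A * h := by ring
      omega
    omega
  obtain ⟨θ, hθ⟩ : ∃ θ, θ = n * n / C := ⟨_, rfl⟩
  have hCn : C ≤ n * n := hnC.trans (Nat.le_mul_of_pos_left n hn1)
  have hθ1 : 1 ≤ θ := by
    rw [hθ]
    exact Nat.div_pos hCn hC0
  have hθC : C * θ ≤ n * n := by
    rw [hθ]
    exact Nat.mul_div_le _ _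
  have hθn : n * n ≤ 2 * C * θ := by
    have h2 : n * n < C * (θ + 1) := by
      rw [hθ]
      exact Nat.lt_mul_div_succ _ hC0
    have h4 : C * 1 ≤ C * θ := Nat.mul_le_mul_left _ hθ1
    have h5 : C * (θ + 1) = C * θ + C := by ring
    have h6 : 2 * C * θ = C * θ + C * θ := by ring
    omega
  have hE : 2 * Fintype.card (Fin n × Fin n) + θ ≤ θ * t := by
    rw [Fintype.card_prod, Fintype.card_fin, ht]
    have h5 : θ * (4 * C + 1) = 2 * (2 * C * θ) + θ := by ring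
    rw [h5]
    omega
  have hhR : (1 : ℝ) ≤ h := by exact_mod_cast hh1
  have hhAR : (A : ℝ) * h ≤ n := by exact_mod_cast hhA
  have hhnR : (n : ℝ) ≤ 2 * A * h := by exact_mod_cast hhn
  have hθCR : (C : ℝ) * θ ≤ n * n := by exact_mod_cast hθC
  have c2 : 72 * (q : ℝ) ^ 2 * h ≤ η ^ 2 * n := by
    calc 72 * (q : ℝ) ^ 2 * h ≤ (η ^ 2 * A) * h := mul_le_mul_of_nonneg_right hA2 (by positivity)
      _ = η ^ 2 * (A * h) := by ring
      _ ≤ _ := mul_le_mul_of_nonneg_left hhAR (by positivity)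
  have c3 : 3 * ((q : ℝ) * ((t : ℝ) * (2 * θ) ^ 2)) ≤ η * (n : ℝ) ^ 2 * h ^ 2 := by
    have hCR : (1 : ℝ) ≤ C := by exact_mod_cast hC0
    have htR : (t : ℝ) ≤ 5 * C := by
      rw [ht]
      push_cast
      linarith
    have e1 : 3 * ((q : ℝ) * ((t : ℝ) * (2 * θ) ^ 2)) * C ≤ 60 * (q : ℝ) * ((n : ℝ) * n) ^ 2 := by
      calc 3 * ((q : ℝ) * ((t : ℝ) * (2 * θ) ^ 2)) * C ≤
            3 * ((q : ℝ) * ((5 * C) * (2 * θ) ^ 2)) * C := by
            refine mul_le_mul_of_nonneg_right ?_ (by positivity)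
            refine mul_le_mul_of_nonneg_left ?_ (by norm_num)
            refine mul_le_mul_of_nonneg_left ?_ (by positivity)
            exact mul_le_mul_of_nonneg_right htR (by positivity)
        _ = 60 * (q : ℝ) * ((C : ℝ) * θ) ^ 2 := by ring
        _ ≤ _ := by
            refine mul_le_mul_of_nonneg_left ?_ (by positivity)
            exact pow_le_pow_left₀ (by positivity) hθCR 2
    have e2 : 60 * (q : ℝ) * ((n : ℝ) * n) ^ 2 ≤ η * (n : ℝ) ^ 2 * h ^ 2 * C := by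
      have e3 : (n : ℝ) ^ 2 ≤ (2 * A * h) ^ 2 := pow_le_pow_left₀ (by positivity) hhnR 2
      calc 60 * (q : ℝ) * ((n : ℝ) * n) ^ 2 = 60 * (q : ℝ) * (n : ℝ) ^ 2 * (n : ℝ) ^ 2 := by ring
        _ ≤ 60 * (q : ℝ) * (n : ℝ) ^ 2 * (2 * A * h) ^ 2 :=
            mul_le_mul_of_nonneg_left e3 (by positivity)
        _ = (240 * (q : ℝ) * (A : ℝ) ^ 2) * ((n : ℝ) ^ 2 * h ^ 2) := by ring
        _ ≤ (η * C) * ((n : ℝ) ^ 2 * h ^ 2) := mul_le_mul_of_nonneg_right hC2 (by positivity)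
        _ = _ := by ring
    exact le_of_mul_le_mul_right (e1.trans e2) (by positivity)
  obtain ⟨ρ, hρ, hw1⟩ := rand_density μ R K W T a h1 (θ := θ) (t := t) hθ1 (by omega) hE
    (U := Lab n q) zz (univ : Finset (Lab n q)) (η := 0) (by rw [card_univ, pow_zero, one_mul])
    (fun P _ => hyes _ ((yes_iff hn1 _).1 (zz_one P))) (N := 2 ^ n) (fun ρ p hp => by
        obtain ⟨B, hB1, hB2⟩ := few_bad hq hη hη1 hn1 hh1 c2 c3 p hp
        refine ⟨B, fun b hb => hB1 b ?_, hB2⟩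
        by_contra hcon
        push Not at hcon
        refine hb (hno ρ _ fun S hS => ?_)
        have h9 := hcon S hS
        rw [expansion_eq hn1 _ S hS]
        have h10 : inner (mixp p zz b) S / (n : ℝ) ^ 2 ≤ 1 / (q : ℝ) + η := by
          rw [div_le_iff₀ (by positivity)]
          exact h9
        linarith)
  refine ⟨ρ, ?_⟩
  obtain ⟨w, hw⟩ : ∃ w, w = Fintype.card (W ρ) := ⟨_, rfl⟩
  rw [← hw] at hρ hw1 ⊢
  obtain ⟨X, hX⟩ : ∃ X, X = 2 ^ μ * w := ⟨_, rfl⟩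
  have hX1 : 1 ≤ X := by
    rw [hX]
    exact Nat.mul_pos (Nat.pow_pos (by norm_num)) hw1
  rw [← hX]
  have e1 : 2 ^ (μ + 0 + 1) * (t * w ^ 3) ≤ 2 ^ (t + 1) * X ^ 3 := by
    have e2 : t ≤ 2 ^ t := Nat.lt_two_pow_self.le
    have e3 : 2 ^ μ ≤ (2 ^ μ) ^ 3 := by
      conv_lhs => rw [← pow_one (2 ^ μ)]
      exact Nat.pow_le_pow_right (Nat.pow_pos (by norm_num)) (by norm_num)
    calc 2 ^ (μ + 0 + 1) * (t * w ^ 3) = 2 * (2 ^ μ * (t * w ^ 3)) := by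
          rw [add_zero, pow_succ]; ring
      _ ≤ 2 * ((2 ^ μ) ^ 3 * (2 ^ t * w ^ 3)) := by
        refine Nat.mul_le_mul (by norm_num) (Nat.mul_le_mul e3 (Nat.mul_le_mul_right _ e2))
      _ = _ := by rw [hX, pow_add]; ring
  have e4 : 2 ^ n ≤ 2 ^ ((t + 1) ^ 2) * X ^ (3 * (t + 1)) := by
    calc 2 ^ n ≤ (2 ^ (t + 1) * X ^ 3) ^ (t + 1) := hρ.trans (Nat.pow_le_pow_left e1 _)
      _ = _ := by rw [mul_pow, ← pow_mul, ← pow_mul, sq]
  have e5 : 2 ^ n * 2 ^ n ≤ 2 ^ n * X ^ (6 * (t + 1)) := by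
    calc 2 ^ n * 2 ^ n ≤ (2 ^ ((t + 1) ^ 2) * X ^ (3 * (t + 1))) *
          (2 ^ ((t + 1) ^ 2) * X ^ (3 * (t + 1))) := Nat.mul_le_mul e4 e4
      _ = 2 ^ (2 * (t + 1) ^ 2) * X ^ (6 * (t + 1)) := by
          rw [two_mul ((t + 1) ^ 2), pow_add, show 6 * (t + 1) = 3 * (t + 1) + 3 * (t + 1) by ring,
            pow_add X]
          ring
      _ ≤ _ := Nat.mul_le_mul_right _ (Nat.pow_le_pow_right (by norm_num) hnt)
  have e6 : 2 ^ n ≤ X ^ (6 * (t + 1)) :=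
    Nat.le_of_mul_le_mul_left e5 (Nat.pow_pos (by norm_num))
  exact e6.trans (Nat.pow_le_pow_right hX1 (by omega))


end Pool.Agent.Q329.ST
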