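import Pool.Agent.Q329.LT.Side

/-! Weighted sums over pairs of random labels, one side fixed (helper329). -/

set_option autoImplicit false
set_option linter.unusedSectionVars false
set_option linter.unusedVariables false

open Finset

namespace Pool.Agent.Q329.ST

lemma one_side {ι' ι E κ : Type} [Fintype ι'] [DecidableEq ι'] [Fintype ι] [DecidableEq ι]
    [Fintype κ] [Nonempty κ] [DecidableEq κ] [DecidableEq E] (S : Finset E) (f : E → ι') (g : E → ι)
    (w : E → κ → κ → ℝ) (W : E → ℝ) (M h lam τ : ℝ) (hM : 0 ≤ M)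
    (hw0 : ∀ e a k, 0 ≤ w e a k) (hwM : ∀ e a k, w e a k ≤ M) (hW : ∀ e a, ∑ k, w e a k = W e)
    (hS : ∀ i, ((S.filter fun e => g e = i).card : ℝ) ≤ h)
    (hlam : 0 ≤ lam) (hlh : lam * (h * M) ≤ 1) (B : Finset ((ι' → κ) × (ι → κ)))
    (hB : ∀ c ∈ B, (∑ e ∈ S, W e) / Fintype.card κ + τ ≤ ∑ e ∈ S, w e (c.1 (f e)) (c.2 (g e))) :
    (B.card : ℝ) *
      Real.exp (lam * τ - lam ^ 2 * (h * M) * ((∑ e ∈ S, W e) / Fintype.card κ)) ≤
      (Fintype.card κ : ℝ) ^ (Fintype.card ι' + Fintype.card ι) := by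
  classical
  have hfix : ∀ a : ι' → κ, (((B.filter fun c => c.1 = a).card : ℕ) : ℝ) *
      Real.exp (lam * τ - lam ^ 2 * (h * M) * ((∑ e ∈ S, W e) / Fintype.card κ)) ≤
      (Fintype.card κ : ℝ) ^ Fintype.card ι := by
    intro a
    obtain ⟨Y, hY⟩ : ∃ Y : ι → κ → ℝ, Y = fun i k =>
      ∑ e ∈ S.filter (fun e => g e = i), w e (a (f e)) k := ⟨_, rfl⟩
    have hYs : ∀ i, ∑ k, Y i k = ∑ e ∈ S.filter (fun e => g e = i), W e := by
      intro i
      rw [hY]
      show ∑ k, ∑ e ∈ S.filter (fun e => g e = i), w e (a (f e)) k = _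
      rw [sum_comm]
      exact sum_congr rfl fun e _ => hW e _
    have hYss : ∑ i, ∑ k, Y i k = ∑ e ∈ S, W e := by
      rw [sum_congr rfl fun i _ => hYs i]
      exact sum_fiberwise_of_maps_to (fun _ _ => mem_univ _) _
    have h1 := Pool.Agent.Q329.LT.mgf Y (h * M) lam τ
      (fun i c => by rw [hY]; exact sum_nonneg fun e _ => hw0 e _ _) (fun i c => by
      rw [hY]
      calc ∑ e ∈ S.filter (fun e => g e = i), w e (a (f e)) c ≤
            ∑ _e ∈ S.filter (fun e => g e = i), M := sum_le_sum fun e _ => hwM e _ _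
        _ = ((S.filter fun e => g e = i).card : ℝ) * M := by rw [sum_const, nsmul_eq_mul]
        _ ≤ _ := mul_le_mul_of_nonneg_right (hS i) hM) hlam hlh
      ((B.filter fun c => c.1 = a).image Prod.snd) (fun c hc => by
        obtain ⟨c', hc', rfl⟩ := mem_image.mp hc
        obtain ⟨hc1, hc2⟩ := mem_filter.mp hc'
        rw [hYss]
        refine (hB c' hc1).trans (le_of_eq ?_)
        rw [hY]
        show _ = ∑ i, ∑ e ∈ S.filter (fun e => g e = i), w e (a (f e)) (c'.2 i)
        rw [← sum_fiberwise_of_maps_to (s := S) (t := univ) (g := g) (fun _ _ => mem_univ _)]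
        refine sum_congr rfl fun i _ => sum_congr rfl fun e he => ?_
        rw [(mem_filter.mp he).2, hc2])
    rw [hYss] at h1
    have h2 : ((B.filter fun c => c.1 = a).image Prod.snd).card =
        (B.filter fun c => c.1 = a).card := by
      refine card_image_of_injOn ?_
      intro c hc c' hc' hcc
      have e1 := (mem_filter.mp (mem_coe.mp hc)).2
      have e2 := (mem_filter.mp (mem_coe.mp hc')).2
      exact Prod.ext (e1.trans e2.symm) hcc
    rw [h2] at h1
    exact h1
  have h3 : B.card = ∑ a : ι' → κ, (B.filter fun c => c.1 = a).card :=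
    card_eq_sum_card_fiberwise (f := Prod.fst) (t := univ) (fun _ _ => mem_univ _)
  rw [h3]
  push_cast
  rw [sum_mul]
  refine (sum_le_sum fun a _ => hfix a).trans (le_of_eq ?_)
  rw [sum_const, card_univ, nsmul_eq_mul, Fintype.card_fun, pow_add]
  push_cast
  ring

end Pool.Agent.Q329.ST
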